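import Mathlib

/-!
# Powers of two: the numerical block
-/

set_option autoImplicit false

namespace Pool.Agent.Helper42.VR

open Finset

/-- If `x (2 m - 6) > 1 / 2`, the sum of the first `N` terms is large. -/
lemma num_sum33 {N : ℕ} (hN : 16 ≤ N) {x : ℕ → ℝ} (hx : Antitone x) {m : ℕ} (hm : N < 2 * m)
    (hh : 1 / 2 < x (2 * m - 6)) :
    x 1 + x 2 + x 3 + x 4 + x 5 + x 6 + x 7 + ((N : ℝ) - 12) / 2 + 5 * x (2 * m) ≤
      ∑ i ∈ range N, x (i + 1) := by
  obtain ⟨n, rfl⟩ : ∃ n, N = 7 + n + 5 := ⟨N - 12, by omega⟩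
  rw [Finset.sum_range_add, Finset.sum_range_add]
  have e1 : ∑ i ∈ range 7, x (i + 1) = x 1 + x 2 + x 3 + x 4 + x 5 + x 6 + x 7 := by
    simp [Finset.sum_range_succ]
  have e2 : (n : ℝ) / 2 ≤ ∑ i ∈ range n, x (7 + i + 1) := by
    have h := Finset.card_nsmul_le_sum (range n) (fun i => x (7 + i + 1)) (1 / 2) (fun i hi => by
      have hi' := Finset.mem_range.mp hi
      exact hh.le.trans (hx (by omega)))
    rw [Finset.card_range, nsmul_eq_mul] at h
    linarith
  have e3 : 5 * x (2 * m) ≤ ∑ i ∈ range 5, x (7 + n + i + 1) := by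
    have h := Finset.card_nsmul_le_sum (range 5) (fun i => x (7 + n + i + 1)) (x (2 * m))
      (fun i hi => by
        have hi' := Finset.mem_range.mp hi
        exact hx (by omega))
    rw [Finset.card_range, nsmul_eq_mul] at h
    exact_mod_cast h
  rw [e1]
  push_cast
  linarith

/-- A lower bound of the sum by the last term. -/
lemma num_card33 {N l : ℕ} (hN : 0 < N) {x : ℕ → ℝ} (hx : Antitone x) (hl : N ≤ l)
    (htop : ∑ i ∈ range N, x (i + 1) < (N : ℝ) / 2) : x l < 1 / 2 := by
  have h := Finset.card_nsmul_le_sum (range N) (fun i => x (i + 1)) (x l) (fun i hi => by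
    have hi' := Finset.mem_range.mp hi
    exact hx (by omega))
  rw [Finset.card_range, nsmul_eq_mul] at h
  have hN' : (0 : ℝ) < N := by exact_mod_cast hN
  have h2 : (N : ℝ) * x l < N * (1 / 2) := by linarith
  exact lt_of_mul_lt_mul_left h2 hN'.le

/-- The second alternative. -/
lemma num_prev33 {x : ℕ → ℝ} (hx : Antitone x) (h0 : ∀ n, 0 ≤ x n) (h1 : ∀ n, x n ≤ 1) {m : ℕ}
    (hm : 14 ≤ 2 * m) (f1 : x (2 * m - 6) ≤ 1 / 2) (f2 : 1 / 2 - x (2 * m) ≤ 2 - x 2 - x 3)
    (f3 : x 8 + x 9 ≤ 1 + (1 - x 2) + x (2 * m)) (f4 : x 8 + x 9 ≤ 3 / 2 + x (2 * m + 1)) :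
    14 ≤ 2 * m ∧ x 2 + x 3 + x (2 * m - 5) ≤ 2 + x (2 * m) ∧ x 2 + x 8 + x 9 ≤ 2 + x (2 * m) ∧
        x 2 + x (2 * m - 5) + x (2 * m - 6) ≤ 2 + x (2 * m + 1) ∧
        x 8 + x 9 + x (2 * m - 6) ≤ 2 + x (2 * m + 1) := by
  have g : x (2 * m - 5) ≤ x (2 * m - 6) := hx (by omega)
  have g2 := h0 (2 * m + 1)
  have g3 := h1 2
  refine ⟨hm, ?_, ?_, ?_, ?_⟩ <;> linarith

/-- BLOCK NUM. -/
theorem numeric {N : ℕ} (hN : N = 8 ∨ 16 ≤ N) {x : ℕ → ℝ} (hx : Antitone x) (h0 : ∀ n, 0 ≤ x n)
    (h1 : ∀ n, x n ≤ 1) {m : ℕ} (hm : 1 ≤ m) (hmN : m + 1 ≤ N)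
    (hc : ∀ k, 1 ≤ k → k + 1 ≤ N → x (2 * k) - x (2 * k + 1) ≤ x (2 * m) - x (2 * m + 1))
    {j : ℕ} (hj : 1 ≤ j) (hjN : 2 * j + 2 ≤ N)
    (hb : ∀ k, 1 ≤ k → 2 * k + 2 ≤ N → x (4 * k) + x (4 * k + 1) - x (4 * k + 2) - x (4 * k + 3) ≤
      x (4 * j) + x (4 * j + 1) - x (4 * j + 2) - x (4 * j + 3))
    (hstd : 2 < x 2 + x 3 + (x (2 * m) - x (2 * m + 1)))
    (hQ : 1 < max ((x 4 + x 5 + x 6 + x 7) / 4) ((1 - x 2) / 2) +
      max ((x (4 * j) + x (4 * j + 1) - x (4 * j + 2) - x (4 * j + 3)) / 4) ((1 - x 1) / 2) +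
      max ((x (2 * m) - x (2 * m + 1)) / 2) ((1 - x 3) / 2))
    (h7 : x 1 + x 2 + x 3 + x 4 + x 5 + x 6 + x 7 < 5)
    (htop : ∑ i ∈ range N, x (i + 1) < (N : ℝ) / 2) :
    (2 * m ≤ N ∧ x 2 + x 3 + x (2 * m + 1) ≤ 2 + x (4 * m - 1)) ∨
      (14 ≤ 2 * m ∧ x 2 + x 3 + x (2 * m - 5) ≤ 2 + x (2 * m) ∧ x 2 + x 8 + x 9 ≤ 2 + x (2 * m) ∧
        x 2 + x (2 * m - 5) + x (2 * m - 6) ≤ 2 + x (2 * m + 1) ∧
        x 8 + x 9 + x (2 * m - 6) ≤ 2 + x (2 * m + 1)) := by
  have a12 : x 2 ≤ x 1 := hx (by norm_num)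
  have a23 : x 3 ≤ x 2 := hx (by norm_num)
  have a34 : x 4 ≤ x 3 := hx (by norm_num)
  have a45 : x 5 ≤ x 4 := hx (by norm_num)
  have a56 : x 6 ≤ x 5 := hx (by norm_num)
  have a67 : x 7 ≤ x 6 := hx (by norm_num)
  have a78 : x 8 ≤ x 7 := hx (by norm_num)
  have a89 : x 9 ≤ x 8 := hx (by norm_num)
  have b1 := h1 1
  have b9 := h0 9
  have hm2 : 2 ≤ m := by
    by_contra h
    have h2 : m = 1 := by omega
    subst h2
    norm_num at hstd
    linarith
  have hv4 : x (2 * m) ≤ x 4 := hx (by omega)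
  have hu0 := h0 (2 * m + 1)
  have hq0 := h0 (4 * m - 1)
  -- the maxima
  rw [max_eq_left (a := (x 4 + x 5 + x 6 + x 7) / 4) (by linarith),
    max_eq_left (a := (x (2 * m) - x (2 * m + 1)) / 2) (by linarith)] at hQ
  have hvN : N < 2 * m → x (2 * m) < 1 / 2 := fun h =>
    num_card33 (by omega) hx h.le htop
  rcases le_total ((1 - x 1) / 2)
    ((x (4 * j) + x (4 * j + 1) - x (4 * j + 2) - x (4 * j + 3)) / 4) with hB | hB
  · rw [max_eq_left hB] at hQ
    have hr0 := h0 (4 * j + 2)
    have hs0 := h0 (4 * j + 3)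
    by_cases hj1 : j = 1
    · -- the first block
      subst hj1
      norm_num at hQ
      have k1 : 2 < x 4 + x 5 + (x (2 * m) - x (2 * m + 1)) := by linarith
      by_cases m2 : m = 2
      · subst m2
        norm_num at k1
        have := h1 4
        linarith
      by_cases m3 : m = 3
      · subst m3
        left
        norm_num at k1 hq0 hstd ⊢
        refine ⟨by omega, ?_⟩
        linarith
      have hv8 : x (2 * m) ≤ x 8 := hx (by omega)
      have k2 : x 6 + x 7 < 2 * (x (2 * m) - x (2 * m + 1)) + (1 - x 1) := by linarith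
      by_cases hmN2 : 2 * m ≤ N
      · left
        exact ⟨hmN2, by linarith⟩
      rcases hN with hN | hN
      · exfalso
        subst hN
        have e1 : ∑ i ∈ range 8, x (i + 1) =
            x 1 + x 2 + x 3 + x 4 + x 5 + x 6 + x 7 + x 8 := by
          simp [Finset.sum_range_succ]
        rw [e1] at htop
        norm_num at htop
        linarith
      · right
        have hv := hvN (by omega)
        have g5 : x (2 * m - 5) ≤ x 7 := hx (by omega)
        have g6 : x (2 * m - 6) ≤ x 7 := hx (by omega)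
        refine ⟨by omega, ?_, ?_, ?_, ?_⟩ <;> linarith
    · -- the other blocks
      have hp : x (4 * j) ≤ x 8 := hx (by omega)
      have hq : x (4 * j + 1) ≤ x (4 * j) := hx (by omega)
      have hr : x (4 * j + 2) ≤ x (4 * j + 1) := hx (by omega)
      have hs : x (4 * j + 3) ≤ x (4 * j + 2) := hx (by omega)
      by_cases m2 : m = 2
      · subst m2
        left
        norm_num at hQ hstd ⊢
        refine ⟨by omega, ?_⟩
        linarith
      by_cases m3 : m = 3
      · subst m3
        left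
        norm_num at hQ hstd hq0 ⊢
        refine ⟨by omega, ?_⟩
        linarith
      have hv8 : x (2 * m) ≤ x 8 := hx (by omega)
      -- the position of the largest gap
      have key : x (2 * m + 1) ≤ 2 - x 2 - x 3 ∧
          (x (2 * m) < 1 / 2 → 1 / 2 - x (2 * m) ≤ 2 - x 2 - x 3) := by
        rcases lt_trichotomy (2 * m) (4 * j) with h | h | h
        · have g1 : x (4 * j) ≤ x (2 * m + 1) := hx (by omega)
          constructor
          · linarith
          · intro hv
            exfalso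
            linarith
        · have g1 : x (4 * j) = x (2 * m) := by rw [h]
          have g2 : x (4 * j + 1) = x (2 * m + 1) := by rw [h]
          rw [g1, g2] at hQ
          constructor
          · linarith
          · intro hv
            linarith
        · by_cases h2 : 2 * m = 4 * j + 2
          · have g1 : x (4 * j + 2) = x (2 * m) := by rw [h2]
            have g2 : x (4 * j + 3) = x (2 * m + 1) := by rw [h2]
            rw [g1, g2] at hQ
            have g3 := h1 (2 * m)
            constructor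
            · linarith
            · intro hv
              linarith
          · have g1 : x (2 * m) ≤ x (4 * j + 3) := hx (by omega)
            have g3 := h1 (2 * m)
            constructor
            · linarith
            · intro hv
              linarith
      by_cases hmN2 : 2 * m ≤ N
      · left
        exact ⟨hmN2, by linarith [key.1]⟩
      have hv := hvN (by omega)
      have hk := key.2 hv
      rcases hN with hN | hN
      · exfalso
        subst hN
        have e1 : ∑ i ∈ range 8, x (i + 1) =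
            x 1 + x 2 + x 3 + x 4 + x 5 + x 6 + x 7 + x 8 := by
          simp [Finset.sum_range_succ]
        rw [e1] at htop
        norm_num at htop
        linarith
      · right
        refine num_prev33 hx h0 h1 (by omega) ?_ hk (by linarith) (by linarith)
        by_contra hcon
        rw [not_le] at hcon
        have h5 := num_sum33 hN hx (by omega) hcon
        linarith
  · -- only if `N` is odd and `m = N - 1`
    rw [max_eq_right hB] at hQ
    have hk : N < 2 * (m / 2) + 2 := by
      by_contra hcon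
      rw [not_lt] at hcon
      have h2 := hb (m / 2) (by omega) hcon
      have c1 : x (4 * (m / 2) + 1) ≤ x (4 * (m / 2)) := hx (by omega)
      have c2 : x (4 * (m / 2) + 2) ≤ x (4 * (m / 2) + 1) := hx (by omega)
      have c3 : x (4 * (m / 2) + 3) ≤ x (4 * (m / 2) + 2) := hx (by omega)
      rcases Nat.even_or_odd' m with ⟨l, h | h⟩
      · have d1 : 4 * (m / 2) = 2 * m := by omega
        rw [d1] at h2 c1 c2 c3
        linarith
      · have d1 : 4 * (m / 2) + 2 = 2 * m := by omega
        have d2 : 4 * (m / 2) + 3 = 2 * m + 1 := by omega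
        rw [d1, d2] at h2 c3
        rw [d1] at c2
        linarith
    have hN16 : 16 ≤ N := by omega
    have hv := hvN (by omega)
    have hv8 : x (2 * m) ≤ x 8 := hx (by omega)
    right
    refine num_prev33 hx h0 h1 (by omega) ?_ (by linarith) (by linarith) (by linarith)
    exact (num_card33 (by omega) hx (by omega) htop).le

end Pool.Agent.Helper42.VR
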